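import Pool.Agent.TH613.MC.Defs

/-!
# Powers of divisor classes: definitions
-/

open CategoryTheory AlgebraicGeometry

universe u v w

namespace Pool.Agent.TH85.PD

open Pool.Agent.H914 Pool.Agent.H914.VarClass Pool.Agent.H914.VarClass.Obj Pool.Agent.W492.BB
  Pool.Agent.W550.Corr Pool.Agent.TH133

variable {k : Type u} [Field k] {𝒱 : VarClass k}

/-- The formal properties of the projective bundle `f : P ⟶ X` of lines in a vector bundle of rank
`n` on `X` with Chern classes `c 0 = 1, c 1, …, c n`, and of the first Chern class `ξ` of the dual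
of the tautological line bundle: `dim P = dim X + n - 1`; `f_* ξ^i = 0` for `i < n - 1`;
`f_* ξ^(n-1) = 1`; and the relation `∑_{i=0}^n f^*(c i) ξ^(n-i) = 0` of Grothendieck. -/
structure IsProjectiveBundle (C : TheoryData.{u, v, 0} 𝒱 ℚ) {P X : 𝒱.Obj} (f : P ⟶ X) (n : ℕ)
    (c : ℕ → C.A X) (ξ : C.A P) : Prop where
  pos : 0 < n
  dim : P.dim + 1 = X.dim + n
  deg : C.Deg 1 ξ
  push_lt : ∀ i, i + 1 < n → C.down f (ξ ^ i) = 0
  push_eq : C.down f (ξ ^ (n - 1)) = 1
  relation : ∑ i ∈ Finset.range (n + 1), C.mul (C.up f (c i)) (ξ ^ (n - i)) = 0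

/-- The term of degree `i` of `exp (γ z)` for a class `z` of codimension `r`: it is
`γ^m z^m / m!` if `i = m r`, and `0` if `r` does not divide `i`. These are the Chern classes of a
vector bundle whose Chern character is its rank plus `q z`, where
`γ = (-1)^(r-1) (r-1)! q`. -/
noncomputable def expChern (C : TheoryData.{u, v, 0} 𝒱 ℚ) {X : 𝒱.Obj} (γ : ℚ) (r : ℕ)
    (z : C.A X) (i : ℕ) : C.A X :=
  if r ∣ i then (γ ^ (i / r) / ((i / r).factorial : ℚ)) • z ^ (i / r) else 0

/-- The Chow motive of `X` is a direct summand of a twist of the Chow motive of `Y`: for some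
`e ≥ 0` there are correspondences `u ∈ CH^(dim X + e)(X × Y)` and `v ∈ CH^(dim Y - e)(Y × X)` with
`v ∘ u = [Δ_X]`. -/
def IsTwistedSummand (C : TheoryData.{u, v, 0} 𝒱 ℚ) (X Y : 𝒱.Obj) : Prop :=
  ∃ (e : ℕ) (u : C.A (X.prod Y)) (v : C.A (Y.prod X)), C.Deg (X.dim + e) u ∧
    C.Deg (Y.dim - e) v ∧ C.comp u v = dg C X

/-- The formal properties of the set `S` of all rational varieties (or of all varieties) in the
class of all smooth projective varieties over a field:

* the Chow motive of each variety `X` is a direct summand of a twist of the Chow motive of a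
  member of `S` (the blow-up of a projective space along `X`);
* for each `e > 0` the product of a member `Y` of `S` with some variety of dimension `e` (the
  projective space) is in `S`;
* for each `z ∈ CH^r(Y)`, `r > 0`, on a member `Y` of `S` there are vector bundles of arbitrarily
  large rank on `Y` whose Chern character is the sum of the rank and of a non-zero multiple of `z`,
  that is, whose Chern classes are the terms of `exp (γ z)` for some `γ ≠ 0`; and their projective
  bundles are in `S`. -/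
structure IsRich (C : TheoryData.{u, v, 0} 𝒱 ℚ) (S : Set 𝒱.Obj) : Prop where
  summand : ∀ X : 𝒱.Obj, ∃ Y ∈ S, IsTwistedSummand C X Y
  prod : ∀ Y ∈ S, ∀ e : ℕ, 0 < e → ∃ Q : 𝒱.Obj, Q.dim = e ∧ Y.prod Q ∈ S
  bundle : ∀ Y ∈ S, ∀ (r : ℕ) (z : C.A Y) (N : ℕ), 0 < r → C.Deg r z →
    ∃ (n : ℕ) (γ : ℚ) (P : 𝒱.Obj) (f : P ⟶ Y) (ξ : C.A P), N ≤ n ∧ γ ≠ 0 ∧ P ∈ S ∧
      IsProjectiveBundle C f n (expChern C γ r z) ξ

/-- A family of subspaces `I X i` of the Chow groups `CH^i(X)` which is respected by all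
correspondences: `Γ_*` maps `I X i` to `I Y (i + l - dim X)` for `Γ ∈ CH^l(X × Y)`. -/
structure IsStableFamily (C : TheoryData.{u, v, 0} 𝒱 ℚ)
    (I : ∀ X : 𝒱.Obj, ℕ → Submodule ℚ (C.A X)) : Prop where
  le_gr : ∀ X i, I X i ≤ C.gr X i
  act : ∀ (X Y : 𝒱.Obj) (i j l : ℕ) (Γ : C.A (X.prod Y)), C.Deg l Γ → i + l = j + X.dim →
    ∀ x ∈ I X i, C.act Γ x ∈ I Y j

section Weil

variable {C : TheoryData.{u, v, 0} 𝒱 ℚ} {K : Type w} [Field K] (H : WeilTheoryData.{u, v, w} C K)

/-- The subspace of `CH^i(X)` spanned by the classes `Γ_* z`, where `z ∈ CH^j(Z)` is obtained from a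
cycle class by applying successively `j + 1` correspondences as in `Chain`, and `Γ` is any
correspondence from `Z` to `X`. -/
def longChains (X : 𝒱.Obj) (i : ℕ) : Submodule ℚ (C.A X) :=
  Submodule.span ℚ {x | ∃ (Z : 𝒱.Obj) (j : ℕ) (z : C.A Z) (Γ : C.A (Z.prod X)),
    Chain H (j + 1) Z j z ∧ C.Deg (Z.dim + i - j) Γ ∧ x = C.act Γ z}

/-- The intersection over all `m` of the subspaces of `CH^i(X)` spanned by the classes obtained
from cycle classes by applying successively `m` correspondences as in `Chain`: the intersection of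
the steps of the smallest filtration compatible with correspondences. -/
def chainLimit (X : 𝒱.Obj) (i : ℕ) : Submodule ℚ (C.A X) :=
  ⨅ m : ℕ, Submodule.span ℚ {x | Chain H m X i x}

end Weil

end Pool.Agent.TH85.PD
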