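import Pool.Agent.TH133.Base
import Pool.Agent.TH85.PD.Defs

/-!
# Powers of divisor classes determine adequate equivalence relations
-/

open CategoryTheory AlgebraicGeometry

universe u v w

namespace Pool.Agent.TH85.PD

open Pool.Agent.H914 Pool.Agent.H914.VarClass Pool.Agent.H914.VarClass.Obj Pool.Agent.W492.BB
  Pool.Agent.W550.Corr Pool.Agent.TH133

set_option linter.unusedSectionVars false

variable {k : Type u} [Field k] {𝒱 : VarClass k} {C : TheoryData.{u, v, 0} 𝒱 ℚ}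
  [hC : IsChowProj C] {X Y Z W P : 𝒱.Obj}

section stable

variable {I J : ∀ X : 𝒱.Obj, ℕ → Submodule ℚ (C.A X)}

lemma pow_mem_gr {r : ℕ} {z : C.A X} (h : z ∈ C.gr X r) (n : ℕ) :
    z ^ n ∈ C.gr X ((r * n : ℕ) : ℤ) := by
  induction n with
  | zero => simpa using C.one_mem X
  | succ n ih =>
    rw [pow_succ]
    have := C.mul_mem ih h
    have e1 : ((r * n : ℕ) : ℤ) + (r : ℤ) = ((r * (n + 1) : ℕ) : ℤ) := by push_cast; ring
    rwa [e1] at this

lemma pow_mem_gr_one {z : C.A X} (h : C.Deg 1 z) (n : ℕ) : z ^ n ∈ C.gr X (n : ℤ) := by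
  have h1 : z ∈ C.gr X ((1 : ℕ) : ℤ) := by exact_mod_cast h
  have := pow_mem_gr h1 n
  rwa [one_mul] at this

namespace Stable

variable (hI : IsStableFamily C I)
include hI

lemma pull (f : X ⟶ Y) {i : ℕ} {y : C.A Y} (hy : y ∈ I Y i) : C.pull f y ∈ I X i := by
  have h := C.push_mem (Obj.lift f (𝟙 X)) (C.one_mem X)
  have e1 : (0 : ℤ) + 1 * (((Y.prod X).dim : ℤ) - (X.dim : ℤ)) = (Y.dim : ℤ) := by
    rw [dim_prod]; push_cast; ring
  rw [e1] at h
  have h1 := hI.act Y X i i Y.dim (C.cograph f) h rfl y hy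
  rwa [C.act_cograph] at h1

lemma push (f : X ⟶ Y) {i j : ℕ} (hij : i + Y.dim = j + X.dim) {x : C.A X} (hx : x ∈ I X i) :
    C.push f x ∈ I Y j := by
  have h := C.push_mem (Obj.lift (𝟙 X) f) (C.one_mem X)
  have e1 : (0 : ℤ) + 1 * (((X.prod Y).dim : ℤ) - (X.dim : ℤ)) = (Y.dim : ℤ) := by
    rw [dim_prod]; push_cast; ring
  rw [e1] at h
  have h1 := hI.act X Y i j Y.dim (C.graph f) h hij x hx
  rwa [C.act_graph] at h1

lemma mul_left {i r : ℕ} {c x : C.A X} (hc : c ∈ C.gr X r) (hx : x ∈ I X i) :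
    c * x ∈ I X (i + r) := by
  have h := C.push_mem (Obj.lift (𝟙 X) (𝟙 X)) hc
  have e1 : (r : ℤ) + 1 * (((X.prod X).dim : ℤ) - (X.dim : ℤ)) = ((X.dim + r : ℕ) : ℤ) := by
    rw [dim_prod]; push_cast; ring
  rw [e1] at h
  have h1 := hI.act X X i (i + r) (X.dim + r) (C.mulCorr c) h (by ring) x hx
  rwa [C.act_mulCorr] at h1

lemma mul_right {i r : ℕ} {c x : C.A X} (hx : x ∈ I X i) (hc : c ∈ C.gr X r) :
    x * c ∈ I X (i + r) := by
  rw [ch_comm C x c]
  exact mul_left hI hc hx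

lemma expChern_mem {r : ℕ} {z : C.A X} (hz : z ∈ I X r) (γ : ℚ) {i : ℕ} (hi : 0 < i) :
    expChern C γ r z i ∈ I X i := by
  unfold expChern
  split_ifs with hd
  · obtain ⟨m, rfl⟩ := hd
    have hr : 0 < r := Nat.pos_of_mul_pos_right hi
    have hm : 0 < m := Nat.pos_of_mul_pos_left hi
    rw [Nat.mul_div_cancel_left m hr]
    apply Submodule.smul_mem
    obtain ⟨m, rfl⟩ : ∃ l, m = l + 1 := ⟨m - 1, by omega⟩
    rw [pow_succ]
    have h1 := mul_left hI (pow_mem_gr (hI.le_gr X r hz) m) hz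
    have e1 : r + r * m = r * (m + 1) := by ring
    rwa [e1] at h1
  · exact Submodule.zero_mem _

end Stable

omit hC in
lemma expChern_zero (γ : ℚ) (r : ℕ) (z : C.A X) : expChern C γ r z 0 = 1 := by
  unfold expChern
  simp

omit hC in
lemma expChern_self (γ : ℚ) {r : ℕ} (hr : 0 < r) (z : C.A X) : expChern C γ r z r = γ • z := by
  unfold expChern
  rw [if_pos dvd_rfl, Nat.div_self hr]
  simp

omit hC in
lemma expChern_lt (γ : ℚ) {r i : ℕ} (hi : 0 < i) (hir : i < r) (z : C.A X) :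
    expChern C γ r z i = 0 := by
  unfold expChern
  rw [if_neg]
  intro h
  have := Nat.le_of_dvd hi h
  omega

omit hC in
/-- Grothendieck's relation, solved for `ξ^n`. -/
lemma pow_eq {f : P ⟶ X} {n : ℕ} {γ : ℚ} {r : ℕ} {z : C.A X} {ξ : C.A P}
    (hb : IsProjectiveBundle C f n (expChern C γ r z) ξ) :
    ξ ^ n = - ∑ i ∈ Finset.range n, C.pull f (expChern C γ r z (i + 1)) * ξ ^ (n - (i + 1)) := by
  have h1 := hb.relation
  rw [Finset.sum_range_succ', expChern_zero] at h1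
  have h2 : C.mul (C.up f (1 : C.A X)) (ξ ^ (n - 0)) = ξ ^ n := by
    change C.pull f 1 * ξ ^ (n - 0) = ξ ^ n
    rw [map_one, one_mul, Nat.sub_zero]
  rw [h2] at h1
  exact eq_neg_of_add_eq_zero_right h1

/-- The power `ξ^n` lies in every stable family containing `z`. -/
lemma pow_mem (hI : IsStableFamily C I) {f : P ⟶ X} {n : ℕ} {γ : ℚ} {r : ℕ} {z : C.A X}
    {ξ : C.A P} (hb : IsProjectiveBundle C f n (expChern C γ r z) ξ) (hz : z ∈ I X r) :
    ξ ^ n ∈ I P n := by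
  rw [pow_eq hb]
  apply Submodule.neg_mem
  apply Submodule.sum_mem
  intro i hi
  rw [Finset.mem_range] at hi
  have h1 := Stable.mul_right hI (Stable.pull hI f (Stable.expChern_mem hI hz γ (Nat.succ_pos i)))
    (pow_mem_gr_one hb.deg (n - (i + 1)))
  have e1 : i + 1 + (n - (i + 1)) = n := by omega
  rwa [Nat.succ_eq_add_one, e1] at h1

/-- The class `z` is, up to a factor, the push-forward of `ξ^(n+r-1)`. -/
lemma push_pow {f : P ⟶ X} {n : ℕ} {γ : ℚ} {r : ℕ} (hr : 0 < r) (hrn : r ≤ n) {z : C.A X}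
    {ξ : C.A P} (hb : IsProjectiveBundle C f n (expChern C γ r z) ξ) :
    C.push f (ξ ^ n * ξ ^ (r - 1)) = -(γ • z) := by
  rw [pow_eq hb, neg_mul, map_neg, Finset.sum_mul, map_sum]
  congr 1
  have h1 : ∀ i ∈ Finset.range n, C.push f (C.pull f (expChern C γ r z (i + 1)) *
      ξ ^ (n - (i + 1)) * ξ ^ (r - 1)) =
        expChern C γ r z (i + 1) * C.push f (ξ ^ (n - (i + 1) + (r - 1))) := by
    intro i _
    rw [mul_assoc, ← pow_add, C.proj_left]
  rw [Finset.sum_congr rfl h1, Finset.sum_eq_single (r - 1)]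
  · have e1 : r - 1 + 1 = r := by omega
    have e2 : n - r + (r - 1) = n - 1 := by omega
    have e3 : C.push f (ξ ^ (n - 1)) = 1 := hb.push_eq
    rw [e1, e2, e3, mul_one, expChern_self γ hr]
  · intro i hi hne
    rw [Finset.mem_range] at hi
    rcases Nat.lt_or_ge i (r - 1) with h | h
    · rw [expChern_lt γ (Nat.succ_pos i) (by omega), zero_mul]
    · have e3 : C.push f (ξ ^ (n - (i + 1) + (r - 1))) = 0 := hb.push_lt _ (by omega)
      rw [e3, mul_zero]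
  · intro h
    exact absurd (Finset.mem_range.2 (by omega)) h

variable {S : Set 𝒱.Obj}

theorem mem_of_pos (hS : IsRich C S) (hI : IsStableFamily C I) (hJ : IsStableFamily C J)
    (h : ∀ Y ∈ S, ∀ (n : ℕ) (ξ : C.A Y), Y.dim = 2 * n → C.Deg 1 ξ → ξ ^ n ∈ I Y n →
      ξ ^ n ∈ J Y n) (hY : Y ∈ S) {r : ℕ} (hr : 0 < r) {z : C.A Y} (hz : z ∈ I Y r) :
    z ∈ J Y r := by
  obtain ⟨n, γ, P, f, ξ, hn, hγ, hP, hb⟩ := hS.bundle Y hY r z (Y.dim + r) hr (hI.le_gr Y r hz)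
  obtain ⟨Q, hQ, hPQ⟩ := hS.prod P hP (n + 1 - Y.dim) (by omega)
  have hPd := hb.dim
  have hdim : (P.prod Q).dim = 2 * n := by rw [dim_prod, hQ]; omega
  -- the power of the divisor class
  have h1 : (C.pull (fst P Q) ξ) ^ n ∈ I (P.prod Q) n := by
    rw [← map_pow]
    exact Stable.pull hI _ (pow_mem hI hb hz)
  have h2 := h (P.prod Q) hPQ n (C.pull (fst P Q) ξ) hdim (C.pull_mem _ hb.deg) h1
  obtain ⟨a, ha, ha1, _⟩ := exists_deg_one C Q
  have h3 : ξ ^ n ∈ J P n := by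
    have h4 := Stable.push hJ (fst P Q) (j := n) (by rw [dim_prod]; ring)
      (Stable.mul_right hJ h2 (C.pull_mem (snd P Q) ha))
    rwa [← map_pow, C.proj_left, ha1, mul_one] at h4
  have h4 := Stable.push hJ f (j := r) (by omega)
    (Stable.mul_right hJ h3 (pow_mem_gr_one hb.deg (r - 1)))
  rw [push_pow hr (by omega) hb] at h4
  have h5 := Submodule.smul_mem _ (-γ)⁻¹ h4
  rwa [← neg_smul, smul_smul, inv_mul_cancel₀ (neg_ne_zero.2 hγ), one_smul] at h5

theorem mem_of_zero (hS : IsRich C S) (hI : IsStableFamily C I) (hJ : IsStableFamily C J)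
    (h : ∀ Y ∈ S, ∀ (n : ℕ) (ξ : C.A Y), Y.dim = 2 * n → C.Deg 1 ξ → ξ ^ n ∈ I Y n →
      ξ ^ n ∈ J Y n) (hY : Y ∈ S) {z : C.A Y} (hz : z ∈ I Y 0) : z ∈ J Y 0 := by
  obtain ⟨q, rfl⟩ := hC.gr_zero Y z (by exact_mod_cast hI.le_gr Y 0 hz)
  by_cases hq : q = 0
  · subst hq
    rw [zero_smul]
    exact Submodule.zero_mem _
  have h1 : (1 : C.A Y) ∈ I Y 0 := by
    have h5 := Submodule.smul_mem _ q⁻¹ hz
    rwa [smul_smul, inv_mul_cancel₀ hq, one_smul] at h5
  obtain ⟨Q, hQ, hW⟩ := hS.prod Y hY 1 one_pos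
  have h2 : (1 : C.A (Y.prod Q)) ∈ I (Y.prod Q) 0 := by
    have := Stable.pull hI (fst Y Q) h1
    rwa [map_one] at this
  obtain ⟨g, hg, q', hq', hgq⟩ := hC.polarized (Y.prod Q)
  have hg1 : g ∈ C.gr (Y.prod Q) ((1 : ℕ) : ℤ) := by exact_mod_cast hg
  have h3 : g ∈ I (Y.prod Q) 1 := by
    have := Stable.mul_left hI hg1 h2
    rwa [mul_one, zero_add] at this
  have h4 : g ∈ J (Y.prod Q) 1 := mem_of_pos hS hI hJ h hW one_pos h3
  have hd : (Y.prod Q).dim = (Y.prod Q).dim - 1 + 1 := by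
    have : (Y.prod Q).dim = Y.dim + 1 := by rw [dim_prod, hQ]
    omega
  have h5 : g ^ (Y.prod Q).dim ∈ J (Y.prod Q) (Y.prod Q).dim := by
    have h6 := Stable.mul_left hJ (pow_mem_gr_one hg ((Y.prod Q).dim - 1)) h4
    rw [← pow_succ, add_comm 1] at h6
    rwa [← hd] at h6
  have h6 := Stable.push hJ (snd (Y.prod Q) (Y.prod Q)) (j := 0) (by rw [dim_prod (Y.prod Q)]; ring)
    (Stable.pull hJ (fst (Y.prod Q) (Y.prod Q)) h5)
  have h7 : C.push (snd (Y.prod Q) (Y.prod Q)) (C.pull (fst (Y.prod Q) (Y.prod Q))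
      (g ^ (Y.prod Q).dim)) = q' • (1 : C.A (Y.prod Q)) := hgq
  rw [h7] at h6
  have h8 : (1 : C.A (Y.prod Q)) ∈ J (Y.prod Q) 0 := by
    have h5 := Submodule.smul_mem _ q'⁻¹ h6
    rwa [smul_smul, inv_mul_cancel₀ hq', one_smul] at h5
  obtain ⟨a, ha, ha1, _⟩ := exists_deg_one C Q
  have h9 := Stable.push hJ (fst Y Q) (j := 0) (by rw [dim_prod]; ring)
    (Stable.mul_right hJ h8 (C.pull_mem (snd Y Q) ha))
  rw [one_mul, ha1] at h9
  exact Submodule.smul_mem _ q h9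

/-- **Adequate equivalence relations are determined by powers of divisor classes.** -/
theorem le_of_powers (hS : IsRich C S) (hI : IsStableFamily C I) (hJ : IsStableFamily C J)
    (h : ∀ Y ∈ S, ∀ (n : ℕ) (ξ : C.A Y), Y.dim = 2 * n → C.Deg 1 ξ → ξ ^ n ∈ I Y n →
      ξ ^ n ∈ J Y n) (X : 𝒱.Obj) (i : ℕ) : I X i ≤ J X i := by
  intro x hx
  obtain ⟨Y, hY, e, u, v, hu, hv, huv⟩ := hS.summand X
  have h1 : C.act u x ∈ I Y (i + e) :=
    hI.act X Y i (i + e) (X.dim + e) u (by exact_mod_cast hu) (by ring) x hx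
  have h2 : C.act u x ∈ J Y (i + e) := by
    rcases Nat.eq_zero_or_pos (i + e) with h0 | h0
    · rw [h0] at h1 ⊢
      exact mem_of_zero hS hI hJ h hY h1
    · exact mem_of_pos hS hI hJ h hY h0 h1
  have h3 : C.act v (C.act u x) = x := by rw [← C.act_comp, huv, act_dg]
  rw [← h3]
  rcases Nat.lt_or_ge Y.dim e with he | he
  · have h4 : v = 0 := by
      have h5 : v ∈ C.gr (Y.prod X) ((Y.dim : ℤ) - e) := hv
      rw [C.gr_neg (Y.prod X) _ (by omega)] at h5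
      exact (Submodule.mem_bot _).1 h5
    rw [h4, TheoryData.act_zero]
    exact Submodule.zero_mem _
  · refine hJ.act Y X (i + e) i (Y.dim - e) v ?_ (by omega) _ h2
    have e1 : ((Y.dim - e : ℕ) : ℤ) = (Y.dim : ℤ) - e := by omega
    rw [e1]
    exact hv

end stable

end Pool.Agent.TH85.PD
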