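import Pool.Agent.TH133.AJ
import Pool.Agent.TH85.PD.Core

/-!
# Chains of correspondences, powers of divisor classes and Bloch-Beilinson filtrations
-/

open CategoryTheory AlgebraicGeometry

universe u v w

namespace Pool.Agent.TH85.PD

open Pool.Agent.H914 Pool.Agent.H914.VarClass Pool.Agent.H914.VarClass.Obj Pool.Agent.W492.BB
  Pool.Agent.W550.Corr Pool.Agent.TH133 Pool.Agent.TH613.MC

set_option linter.unusedSectionVars false

variable {k : Type u} [Field k] {𝒱 : VarClass k} {C : TheoryData.{u, v, 0} 𝒱 ℚ}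
  [hC : IsChowProj C] {K : Type w} [Field K]
  {H : WeilTheoryData.{u, v, w} C K} [hH : IsWeilProj H] {X Y Z W : 𝒱.Obj}

include hC

lemma act_mem_of {a b i j : ℤ} {Γ : C.A (X.prod Y)} (hΓ : Γ ∈ C.gr (X.prod Y) a)
    (ha : a = X.dim + b) {x : C.A X} (hx : x ∈ C.gr X i) (hj : j = i + b) :
    C.act Γ x ∈ C.gr Y j := by
  subst ha hj
  exact act_mem' C hΓ hx

lemma chain_deg {m i : ℕ} {x : C.A X} (h : Chain H m X i x) : C.Deg i x := by
  induction h with
  | nil X i x hx => exact hx
  | cons r Z X j i z Γ hz hΓ had ih =>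
    exact act_mem_of hΓ (b := (i : ℤ) - j) (by ring) ih (by ring)

include hH

lemma admissible_comp {Γ : C.A (X.prod Y)} {m : ℤ} (h : Admissible H Γ m) (Δ : C.A (Y.prod Z)) :
    Admissible H (C.comp Γ Δ) m := by
  have h1 : ∀ l, Kills H Γ l → Kills H (C.comp Γ Δ) l := by
    intro l hl a ha
    rw [actH_comp, hl a ha, TheoryData.act_map_zero]
  rcases h with h | ⟨h, h'⟩
  · exact Or.inl fun l => h1 l (h l)
  · exact Or.inr ⟨h, h1 m h'⟩

lemma chain_act {m i j : ℕ} {x : C.A X} (h : Chain H m X i x) {Γ : C.A (X.prod Y)}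
    (hΓ : C.Deg (X.dim + j - i) Γ) : Chain H m Y j (C.act Γ x) := by
  cases h with
  | nil _ _ _ hx =>
    exact Chain.nil Y j _ (act_mem_of hΓ (b := (j : ℤ) - i) (by ring) hx (by ring))
  | cons r Z _ j' _ z Δ hz hΔ had =>
    rw [← C.act_comp]
    refine Chain.cons r Z Y j' j z (C.comp Δ Γ) hz ?_ (admissible_comp had Γ)
    have h1 : Δ ∈ C.gr (Z.prod X) (Z.dim + ((i : ℤ) - j')) := by
      have e1 : (Z.dim : ℤ) + ((i : ℤ) - j') = Z.dim + i - j' := by ring
      rw [e1]
      exact hΔ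
    have h2 : Γ ∈ C.gr (X.prod Y) (X.dim + ((j : ℤ) - i)) := by
      have e1 : (X.dim : ℤ) + ((j : ℤ) - i) = X.dim + j - i := by ring
      rw [e1]
      exact hΓ
    have h3 := comp_mem C h1 h2
    have e1 : (Z.dim : ℤ) + ((i : ℤ) - j' + ((j : ℤ) - i)) = Z.dim + j - j' := by ring
    rwa [e1] at h3

lemma chain_anti {m i : ℕ} {x : C.A X} (h : Chain H (m + 1) X i x) : Chain H m X i x := by
  induction m generalizing X i x with
  | zero => exact Chain.nil X i x (chain_deg h)
  | succ m ih =>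
    cases h with
    | cons r Z _ j' _ z Δ hz hΔ had =>
      exact chain_act hz hΔ

lemma chain_le {m n i : ℕ} (hmn : m ≤ n) {x : C.A X} (h : Chain H n X i x) :
    Chain H m X i x := by
  induction n with
  | zero =>
    obtain rfl : m = 0 := by omega
    exact h
  | succ n ih =>
    rcases Nat.lt_or_ge m (n + 1) with h1 | h1
    · exact ih (by omega) (chain_anti h)
    · obtain rfl : m = n + 1 := by omega
      exact h

lemma chain_zero (m i : ℕ) (X : 𝒱.Obj) : Chain H m X i (0 : C.A X) := by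
  induction m with
  | zero => exact Chain.nil X i 0 (Submodule.zero_mem _)
  | succ m ih =>
    have h1 := Chain.cons m X X i i (0 : C.A X) (0 : C.A (X.prod X)) ih (Submodule.zero_mem _)
      (Or.inl fun l a _ => by rw [map_zero, TheoryData.act_zero])
    rwa [TheoryData.act_zero] at h1

/-- A homologically trivial class is obtained from a zero-cycle of degree one by one homologically
trivial correspondence. -/
lemma chain_one {i : ℕ} {x : C.A X} (hx : C.Deg i x) (h0 : H.cl x = 0) : Chain H 1 X i x := by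
  obtain ⟨a, ha, _, ha1⟩ := exists_deg_one C X
  have h1 := Chain.cons 0 X X X.dim i a (C.pull (snd X X) x) (Chain.nil X X.dim a ha) (by
      have e1 : (X.dim : ℤ) + i - (X.dim : ℕ) = i := by ring
      rw [e1]
      exact C.pull_mem _ hx)
    (Or.inl fun l b _ => by rw [H.cl_pull, h0, map_zero, TheoryData.act_zero])
  rwa [TheoryData.act_apply, C.proj_left, ha1, mul_one] at h1

lemma chain_actSeq (hK : KunnethConjecture H) {i : ℕ} {γ : ℕ → C.A (X.prod X)}
    (hγ : ∀ n < i, C.Deg X.dim (γ n)) (hk : ∀ n : ℕ, n < i → Kills H (γ n) (2 * i - (n + 1)))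
    {z : C.A X} (hz : C.Deg i z) (h0 : H.cl z = 0) :
    ∀ n ≤ i, Chain H (n + 1) X i (actSeq C γ z n) := by
  intro n
  induction n with
  | zero => exact fun _ => chain_one hz h0
  | succ n ih =>
    intro hn
    refine Chain.cons (n + 1) X X i i _ (γ n) (ih (by omega)) ?_ (Or.inr ⟨hK, ?_⟩)
    · have e1 : (X.dim : ℤ) + i - i = X.dim := by ring
      rw [e1]
      exact hγ n (by omega)
    · have := hk n (by omega)
      have e1 : (2 * i - ((n + 1 : ℕ) : ℤ)) = (2 * i - (n + 1) : ℤ) := by push_cast; ring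
      rw [e1]
      exact this

/-- The steps of a Bloch-Beilinson filtration contain the chains. -/
lemma mem_of_chain {F : Filtration C} (hF : IsBBCorr H F) {m i : ℕ} {x : C.A X}
    (h : Chain H m X i x) : F.Mem i m x := by
  induction h with
  | nil X i x hx => exact (hF.zero X i x).2 hx
  | cons r Z X j i z Γ hz hΓ had ih =>
    rcases lt_or_ge ((Z.dim : ℤ) + i - j) 0 with hneg | hpos
    · have h1 : Γ ∈ C.gr (Z.prod X) ((Z.dim : ℤ) + i - j) := hΓ
      rw [C.gr_neg (Z.prod X) _ hneg] at h1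
      rw [(Submodule.mem_bot _).1 h1, TheoryData.act_zero]
      exact Submodule.zero_mem _
    · obtain ⟨l, hl⟩ := Int.eq_ofNat_of_zero_le hpos
      refine hF.shift Z X j i l Γ ?_ (by omega) r ?_ z ih
      · have h1 : Γ ∈ C.gr (Z.prod X) ((Z.dim : ℤ) + i - j) := hΓ
        rw [hl] at h1
        exact h1
      · rcases had with h | ⟨_, h⟩
        · exact h _
        · exact h

/-- If there is a Bloch-Beilinson filtration, the long chains vanish. -/
lemma chain_eq_zero (hK : KunnethConjecture H) (h : ∃ F : Filtration C, IsBB H F) {i : ℕ}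
    {x : C.A X} (hx : Chain H (i + 1) X i x) : x = 0 := by
  have hN : ∀ (X : 𝒱.Obj) (i : ℕ), NilpotentOnHom H X i := ((isBB_tfae (H := H) hK).out 0 1).1 h
  have hA : ∀ X : 𝒱.Obj, ∃ π : ℕ → C.A (X.prod X), IsCK H X π :=
    fun X => exists_CK_of_cond hK (hN _ _)
  choose π hπ using hA
  have hB := isBBCorr_ck π hπ (fun X => murreD_of_cond (hN X)) (fun X => murreB1_of_cond (hN X))
  exact hB.top X i x (mem_of_chain hB hx)

omit hC hH in
lemma act_mem_span {A : Set (C.A X)} {B : Set (C.A Y)} {Γ : C.A (X.prod Y)}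
    (h : ∀ x ∈ A, C.act Γ x ∈ B) {x : C.A X} (hx : x ∈ Submodule.span ℚ A) :
    C.act Γ x ∈ Submodule.span ℚ B := by
  induction hx using Submodule.span_induction with
  | mem x hx => exact Submodule.subset_span (h x hx)
  | zero =>
    rw [TheoryData.act_map_zero]
    exact Submodule.zero_mem _
  | add x y _ _ hx hy =>
    rw [act_map_add]
    exact Submodule.add_mem _ hx hy
  | smul q x _ hx =>
    rw [act_map_smul]
    exact Submodule.smul_mem _ q hx

variable (H) in
lemma isStable_longChains : IsStableFamily C (longChains H) where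
  le_gr X i := by
    refine Submodule.span_le.2 ?_
    rintro _ ⟨Z, j, z, Γ, hz, hΓ, rfl⟩
    exact act_mem_of hΓ (b := (i : ℤ) - j) (by ring) (chain_deg hz) (by ring)
  act X Y i j l Γ hΓ hij x hx := by
    refine act_mem_span ?_ hx
    rintro _ ⟨Z, j', z, Δ, hz, hΔ, rfl⟩
    refine ⟨Z, j', z, C.comp Δ Γ, hz, ?_, (C.act_comp Δ Γ z).symm⟩
    have h1 : Δ ∈ C.gr (Z.prod X) (Z.dim + ((i : ℤ) - j')) := by
      have e1 : (Z.dim : ℤ) + ((i : ℤ) - j') = Z.dim + i - j' := by ring
      rw [e1]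
      exact hΔ
    have h2 : Γ ∈ C.gr (X.prod Y) (X.dim + ((j : ℤ) - i)) := by
      have e1 : (X.dim : ℤ) + ((j : ℤ) - i) = l := by omega
      rw [e1]
      exact hΓ
    have h3 := comp_mem C h1 h2
    have e1 : (Z.dim : ℤ) + ((i : ℤ) - j' + ((j : ℤ) - i)) = Z.dim + j - j' := by ring
    rwa [e1] at h3

variable (H) in
lemma isStable_chainLimit : IsStableFamily C (chainLimit H) where
  le_gr X i := by
    refine (iInf_le _ 0).trans (Submodule.span_le.2 ?_)
    intro x hx
    exact chain_deg hx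
  act X Y i j l Γ hΓ hij x hx := by
    rw [chainLimit, Submodule.mem_iInf] at hx ⊢
    intro m
    refine act_mem_span ?_ (hx m)
    intro y hy
    refine chain_act hy ?_
    have e1 : (X.dim : ℤ) + j - i = l := by omega
    rw [e1]
    exact hΓ

omit hC hH in
lemma isStable_bot : IsStableFamily C (fun _ _ => ⊥) where
  le_gr X i := bot_le
  act X Y i j l Γ hΓ hij x hx := by
    rw [Submodule.mem_bot] at hx ⊢
    rw [hx, TheoryData.act_map_zero]

omit hH in
/-- The zero family is reached if powers of divisor classes in the family vanish. -/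
theorem eq_zero_of_powers {S : Set 𝒱.Obj} (hS : IsRich C S)
    {I : ∀ X : 𝒱.Obj, ℕ → Submodule ℚ (C.A X)} (hI : IsStableFamily C I)
    (h : ∀ Y ∈ S, ∀ (n : ℕ) (ξ : C.A Y), Y.dim = 2 * n → C.Deg 1 ξ → ξ ^ n ∈ I Y n → ξ ^ n = 0)
    (X : 𝒱.Obj) (i : ℕ) {x : C.A X} (hx : x ∈ I X i) : x = 0 :=
  (Submodule.mem_bot _).1 (le_of_powers hS hI isStable_bot
    (fun Y hY n ξ h1 h2 h3 => (Submodule.mem_bot _).2 (h Y hY n ξ h1 h2 h3)) X i hx)

/-- **The first criterion.** -/
theorem isBB_iff_long (hK : KunnethConjecture H) {S : Set 𝒱.Obj} (hS : IsRich C S) :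
    (∃ F : Filtration C, IsBB H F) ↔ ∀ X ∈ S, ∀ (n : ℕ) (ξ : C.A X), X.dim = 2 * n →
      C.Deg 1 ξ → ξ ^ n ∈ longChains H X n → ξ ^ n = 0 := by
  constructor
  · intro h X _ n ξ _ _ hx
    have h1 : longChains H X n ≤ ⊥ := by
      refine Submodule.span_le.2 ?_
      rintro _ ⟨Z, j, z, Γ, hz, _, rfl⟩
      rw [chain_eq_zero hK h hz, TheoryData.act_map_zero]
      exact Submodule.zero_mem _
    exact (Submodule.mem_bot _).1 (h1 hx)
  · intro h
    have h0 : ∀ (X : 𝒱.Obj) (i : ℕ) (x : C.A X), Chain H (i + 1) X i x → x = 0 := by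
      intro X i x hx
      refine eq_zero_of_powers hS (isStable_longChains H) h X i (Submodule.subset_span ?_)
      exact ⟨X, i, x, dg C X, hx, by
        have e1 : (X.dim : ℤ) + i - i = X.dim := by ring
        rw [e1]
        exact dg_mem C X, (act_dg C x).symm⟩
    refine ((isBB_tfae (H := H) hK).out 0 2).2 ?_
    intro X i γ hγ hk z hz hz0
    exact h0 X i _ (chain_actSeq hK hγ hk hz hz0 i le_rfl)

/-- Using the Lefschetz standard conjecture, chains can be prolonged. -/
lemma chain_prolong (hK : KunnethConjecture H) (hL : LefschetzInverse H) {i m : ℕ} (hm : i < m)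
    {x : C.A X} (hx : Chain H m X i x) : Chain H (m + 1) X i x := by
  by_cases hi : X.dim < i
  · have h1 : x = 0 := hC.gr_top X i x (chain_deg hx) (by exact_mod_cast hi)
    rw [h1]
    exact chain_zero (m + 1) i X
  have hcoe : (X.dim : ℤ) + i - i = X.dim := by ring
  rcases lt_or_ge (2 * i) m with h2 | h2
  · have h1 := Chain.cons m X X i i x (dg C X) hx (by rw [hcoe]; exact dg_mem C X) (Or.inr ⟨hK, by
      intro a ha
      have h3 : a ∈ H.gr X (2 * i - m) := ha
      rw [H.gr_neg X _ (by omega)] at h3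
      rw [(Submodule.mem_bot _).1 h3, TheoryData.act_map_zero]⟩)
    rwa [act_dg] at h1
  obtain ⟨j, hj⟩ : ∃ j, j + m = 2 * i := ⟨2 * i - m, by omega⟩
  obtain ⟨h, hh, hinv⟩ := hL X
  obtain ⟨u, hu, hua⟩ := hinv j (by omega)
  obtain ⟨e, he⟩ : ∃ e : ℕ, X.dim = j + e := ⟨X.dim - j, by omega⟩
  set g : C.A X := h ^ (X.dim - j) with hg
  have hge : g ∈ C.gr X e := by
    have e1 : X.dim - j = e := by omega
    rw [hg, e1]
    exact pow_mem_gr_one hh e
  set Λ : C.A (X.prod X) := C.comp (C.mulCorr g) u with hΛ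
  have hmc : C.mulCorr g ∈ C.gr (X.prod X) (X.dim + (e : ℤ)) := by
    have h1 := C.push_mem (Obj.lift (𝟙 X) (𝟙 X)) hge
    have e1 : (e : ℤ) + 1 * (((X.prod X).dim : ℤ) - (X.dim : ℤ)) = X.dim + (e : ℤ) := by
      rw [dim_prod]; push_cast; ring
    rwa [e1] at h1
  have hu' : u ∈ C.gr (X.prod X) (X.dim + (-(e : ℤ))) := by
    have e1 : (X.dim : ℤ) + (-(e : ℤ)) = j := by rw [he]; push_cast; ring
    rw [e1]
    exact hu
  have hΛm : Λ ∈ C.gr (X.prod X) X.dim := by
    have h1 := comp_mem C hmc hu'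
    have e1 : (X.dim : ℤ) + ((e : ℤ) + (-(e : ℤ))) = X.dim := by ring
    rwa [e1] at h1
  have hΛx : C.act Λ x = 0 := by
    rw [hΛ, C.act_comp, C.act_mulCorr]
    have h1 : g * x ∈ C.gr X ((e + i : ℕ) : ℤ) := by
      have := C.mul_mem hge (chain_deg hx)
      exact_mod_cast this
    have h2 : g * x = 0 := hC.gr_top X _ _ h1 (by exact_mod_cast (by omega))
    rw [h2, TheoryData.act_map_zero]
  have hclm : ∀ a : H.A X, H.act (H.cl (C.mulCorr g)) a = H.cl g * a := by
    intro a
    have e1 : H.cl (C.mulCorr g) = H.mulCorr (H.cl g) := by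
      rw [TheoryData.mulCorr, TheoryData.mulCorr, H.cl_push]
    rw [e1, H.act_mulCorr]
  have hkill : Kills H (dg C X - Λ) (2 * i - m) := by
    intro a ha
    have ha' : a ∈ H.gr X j := by
      have e1 : (2 * i - m : ℤ) = j := by omega
      rw [← e1]
      exact ha
    have e2 : H.cl (dg C X) = dg H.toTheoryData X := by
      rw [dg, dg, TheoryData.graph, TheoryData.graph, H.cl_push, map_one]
    rw [map_sub, TheoryData.act_sub, e2, act_dg, hΛ, actH_comp, hclm]
    have e3 : H.act (H.cl u) (H.cl g * a) = a := hua a ha'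
    rw [e3, sub_self]
  have h1 := Chain.cons m X X i i x (dg C X - Λ) hx (by
    rw [hcoe]
    exact Submodule.sub_mem _ (dg_mem C X) hΛm) (Or.inr ⟨hK, hkill⟩)
  rwa [TheoryData.act_sub, act_dg, hΛx, sub_zero] at h1

lemma mem_chainLimit (hK : KunnethConjecture H) (hL : LefschetzInverse H) {i : ℕ} {x : C.A X}
    (hx : Chain H (i + 1) X i x) : x ∈ chainLimit H X i := by
  have h1 : ∀ m, i + 1 ≤ m → Chain H m X i x := by
    intro m hm
    induction m, hm using Nat.le_induction with
    | base => exact hx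
    | succ m hm ih => exact chain_prolong hK hL (by omega) ih
  rw [chainLimit, Submodule.mem_iInf]
  intro m
  refine Submodule.subset_span ?_
  exact chain_le (Nat.le_add_right m (i + 1)) (h1 (m + (i + 1)) (by omega))

/-- **The second criterion.** -/
theorem isBB_iff_limit (hK : KunnethConjecture H) (hL : LefschetzInverse H) {S : Set 𝒱.Obj}
    (hS : IsRich C S) :
    (∃ F : Filtration C, IsBB H F) ↔ ∀ X ∈ S, ∀ (n : ℕ) (ξ : C.A X), X.dim = 2 * n →
      C.Deg 1 ξ → ξ ^ n ∈ chainLimit H X n → ξ ^ n = 0 := by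
  constructor
  · intro h X _ n ξ _ _ hx
    rw [chainLimit, Submodule.mem_iInf] at hx
    have h1 : Submodule.span ℚ {x | Chain H (n + 1) X n x} ≤ ⊥ := by
      refine Submodule.span_le.2 ?_
      intro x hx
      rw [chain_eq_zero hK h hx]
      exact Submodule.zero_mem _
    exact (Submodule.mem_bot _).1 (h1 (hx (n + 1)))
  · intro h
    have h0 : ∀ (X : 𝒱.Obj) (i : ℕ) (x : C.A X), Chain H (i + 1) X i x → x = 0 := by
      intro X i x hx
      exact eq_zero_of_powers hS (isStable_chainLimit H) h X i (mem_chainLimit hK hL hx)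
    refine ((isBB_tfae (H := H) hK).out 0 2).2 ?_
    intro X i γ hγ hk z hz hz0
    exact h0 X i _ (chain_actSeq hK hγ hk hz hz0 i le_rfl)

end Pool.Agent.TH85.PD
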