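import Pool.Agent.TH829.Prime.Num
import Pool.Agent.TH85.PD.Chains

/-!
# Powers of divisor classes: numerical equivalence, homological equivalence, smash-nilpotence
-/

open CategoryTheory AlgebraicGeometry

universe u v w

namespace Pool.Agent.TH85.PD

open Pool.Agent.H914 Pool.Agent.H914.VarClass Pool.Agent.H914.VarClass.Obj Pool.Agent.W492.BB
  Pool.Agent.W550.Corr Pool.Agent.TH133 Pool.Agent.TH829.Prime

set_option linter.unusedSectionVars false

variable {k : Type u} [Field k] {𝒱 : VarClass k} {C : TheoryData.{u, v, 0} 𝒱 ℚ}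
  [hC : IsChowProj C] {X Y Z W : 𝒱.Obj}

/-- Adequate equivalence relations are respected by correspondences. -/
lemma isStable_of_adequate {P : Family C} (hP : IsAdequate C P) :
    IsStableFamily C (fun X i => P X (i : ℤ)) where
  le_gr X i := hP.le_gr X i
  act X Y i j l Γ hΓ hij x hx := by
    have h1 : C.pull (fst X Y) x * Γ ∈ P (X.prod Y) ((i : ℤ) + l) :=
      hP.mul_mem (hP.pull_mem (fst X Y) hx) hΓ
    rw [ch_comm C] at h1
    have h2 := hP.push_mem (snd X Y) h1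
    have e1 : (i : ℤ) + l + ((Y.dim : ℤ) - (X.prod Y).dim) = j := by
      rw [dim_prod]; push_cast; omega
    rw [e1] at h2
    exact h2

lemma isStable_num (hne : ∀ X : 𝒱.Obj, (1 : C.A X) ≠ 0) :
    IsStableFamily C (fun X i => numFam C X (i : ℤ)) := isStable_of_adequate (isAdequate_numFam hne)

/-- The smash-nilpotent classes of codimension `i`. -/
def smashFam (C : TheoryData.{u, v, 0} 𝒱 ℚ) (X : 𝒱.Obj) (i : ℕ) : Submodule ℚ (C.A X) :=
  C.gr X i ⊓ ⨅ (P : Family C) (_ : IsPrime C P), P X (i : ℤ)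

lemma mem_smashFam {i : ℕ} {a : C.A X} : a ∈ smashFam C X i ↔ C.Deg i a ∧ SmashNilpotent C a := by
  rw [smashFam, Submodule.mem_inf]
  constructor
  · rintro ⟨h1, h2⟩
    refine ⟨h1, (smashNilpotent_iff h1).2 fun P hP => ?_⟩
    rw [Submodule.mem_iInf] at h2
    have h3 := h2 P
    rw [Submodule.mem_iInf] at h3
    exact h3 hP
  · rintro ⟨h1, h2⟩
    refine ⟨h1, ?_⟩
    rw [Submodule.mem_iInf]
    intro P
    rw [Submodule.mem_iInf]
    intro hP
    exact (smashNilpotent_iff h1).1 h2 P hP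

lemma isStable_smash : IsStableFamily C (smashFam C) where
  le_gr X i := inf_le_left
  act X Y i j l Γ hΓ hij x hx := by
    rw [smashFam, Submodule.mem_inf] at hx ⊢
    refine ⟨act_mem_of hΓ (b := (l : ℤ) - X.dim) (by ring) hx.1 (by omega), ?_⟩
    have h1 := hx.2
    rw [Submodule.mem_iInf] at h1 ⊢
    intro P
    have h2 := h1 P
    rw [Submodule.mem_iInf] at h2 ⊢
    intro hP
    exact (isStable_of_adequate hP.toIsAdequate).act X Y i j l Γ hΓ hij x (h2 hP)

section weil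

variable {K : Type w} [Field K] {H : WeilTheoryData.{u, v, w} C K} [hH : IsWeilProj H]

variable (H) in
include hH in
lemma chow_one_ne_zero (X : 𝒱.Obj) : (1 : C.A X) ≠ 0 := by
  intro h
  apply hH.one_ne_zero X
  rw [← map_one H.cl, h, map_zero]

variable (H) in
lemma isStable_hom : IsStableFamily C (homTriv H) where
  le_gr X i := inf_le_left
  act X Y i j l Γ hΓ hij x hx := by
    rw [mem_homTriv] at hx ⊢
    exact ⟨act_mem_of hΓ (b := (l : ℤ) - X.dim) (by ring) hx.1 (by omega), cl_act_zero hx.2⟩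

/-- **The standard conjecture D and powers of divisor classes.** -/
theorem num_hom_iff {S : Set 𝒱.Obj} (hS : IsRich C S) :
    (∀ (X : 𝒱.Obj) (i : ℕ) (z : C.A X), C.Deg i z → NumTrivial C i z → H.cl z = 0) ↔
    ∀ X ∈ S, ∀ (n : ℕ) (ξ : C.A X), X.dim = 2 * n → C.Deg 1 ξ → NumTrivial C n (ξ ^ n) →
      H.cl ξ ^ n = 0 := by
  constructor
  · intro h X _ n ξ _ hξ hn
    rw [← map_pow]
    exact h X n (ξ ^ n) (pow_mem_gr_one hξ n) hn
  · intro h X i z hz hz'
    have h1 := le_of_powers hS (isStable_num (chow_one_ne_zero H)) (isStable_hom H)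
      (fun Y hY n ξ h1 h2 h3 => by
        rw [mem_homTriv]
        refine ⟨pow_mem_gr_one h2 n, ?_⟩
        rw [map_pow]
        exact h Y hY n ξ h1 h2 h3.2) X i
    exact (h1 ⟨hz, hz'⟩).2

/-- **Homologically trivial cycles and smash-nilpotence.** -/
theorem hom_smash_iff {S : Set 𝒱.Obj} (hS : IsRich C S) :
    (∀ (X : 𝒱.Obj) (i : ℕ) (z : C.A X), C.Deg i z → H.cl z = 0 → SmashNilpotent C z) ↔
    ∀ X ∈ S, ∀ (n : ℕ) (ξ : C.A X), X.dim = 2 * n → C.Deg 1 ξ → H.cl ξ ^ n = 0 →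
      SmashNilpotent C (ξ ^ n) := by
  constructor
  · intro h X _ n ξ _ hξ hn
    rw [← map_pow] at hn
    exact h X n (ξ ^ n) (pow_mem_gr_one hξ n) hn
  · intro h X i z hz hz'
    have h1 := le_of_powers hS (isStable_hom H) isStable_smash
      (fun Y hY n ξ h1 h2 h3 => by
        rw [mem_homTriv, map_pow] at h3
        exact mem_smashFam.2 ⟨pow_mem_gr_one h2 n, h Y hY n ξ h1 h2 h3.2⟩) X i
    exact (mem_smashFam.1 (h1 (mem_homTriv.2 ⟨hz, hz'⟩))).2

end weil

/-- **The conjecture of Voevodsky and powers of divisor classes.** -/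
theorem num_smash_iff (hne : ∀ X : 𝒱.Obj, (1 : C.A X) ≠ 0) {S : Set 𝒱.Obj} (hS : IsRich C S) :
    (∀ (X : 𝒱.Obj) (i : ℕ) (z : C.A X), C.Deg i z → NumTrivial C i z → SmashNilpotent C z) ↔
    ∀ X ∈ S, ∀ (n : ℕ) (ξ : C.A X), X.dim = 2 * n → C.Deg 1 ξ → NumTrivial C n (ξ ^ n) →
      SmashNilpotent C (ξ ^ n) := by
  constructor
  · intro h X _ n ξ _ hξ hn
    exact h X n (ξ ^ n) (pow_mem_gr_one hξ n) hn
  · intro h X i z hz hz'
    have h1 := le_of_powers hS (isStable_num hne) isStable_smash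
      (fun Y hY n ξ h1 h2 h3 => mem_smashFam.2 ⟨pow_mem_gr_one h2 n, h Y hY n ξ h1 h2 h3.2⟩) X i
    exact (mem_smashFam.1 (h1 ⟨hz, hz'⟩)).2

/-- **Rational and numerical equivalence and powers of divisor classes.** -/
theorem num_rat_iff (hne : ∀ X : 𝒱.Obj, (1 : C.A X) ≠ 0) {S : Set 𝒱.Obj} (hS : IsRich C S) :
    (∀ (X : 𝒱.Obj) (i : ℕ) (z : C.A X), C.Deg i z → NumTrivial C i z → z = 0) ↔
    ∀ X ∈ S, ∀ (n : ℕ) (ξ : C.A X), X.dim = 2 * n → C.Deg 1 ξ → NumTrivial C n (ξ ^ n) →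
      ξ ^ n = 0 := by
  constructor
  · intro h X _ n ξ _ hξ hn
    exact h X n (ξ ^ n) (pow_mem_gr_one hξ n) hn
  · intro h X i z hz hz'
    exact eq_zero_of_powers hS (isStable_num hne)
      (fun Y hY n ξ h1 h2 h3 => h Y hY n ξ h1 h2 h3.2) X i ⟨hz, hz'⟩

end Pool.Agent.TH85.PD
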