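import Pool.Agent.TH127.PD.Defs
import Pool.Agent.TH85.PD.Num

/-!
# Powers of divisor classes and kernels of Abel-Jacobi maps
-/

open CategoryTheory AlgebraicGeometry

universe u v w

namespace Pool.Agent.TH85.PD

open Pool.Agent.H914 Pool.Agent.H914.VarClass Pool.Agent.H914.VarClass.Obj Pool.Agent.W492.BB
  Pool.Agent.W550.Corr Pool.Agent.TH133 Pool.Agent.TH127.PD

set_option linter.unusedSectionVars false

variable {k : Type u} [Field k] {𝒱 : VarClass k} {C : TheoryData.{u, v, 0} 𝒱 ℚ}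
  [hC : IsChowProj C] {K : Type w} [Field K]
  {H : WeilTheoryData.{u, v, w} C K} [hH : IsWeilProj H] {X Y Z W : 𝒱.Obj}

include hC hH

lemma smul_eq_act (q : ℚ) (z : C.A X) : q • z = C.act (q • dg C X) z := by
  have h1 : C.act (q • dg C X) z = q • C.act (dg C X) z := by
    rw [← actB_apply, ← actB_apply, map_smul, LinearMap.smul_apply]
  rw [h1, act_dg]

/-- The kernel of the Abel-Jacobi map in `CH^i(X)`. -/
def kerFam {T : AbelJacobi H} (hT : T.IsFunctorial) (X : 𝒱.Obj) (i : ℕ) :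
    Submodule ℚ (C.A X) where
  carrier := {z | T.Ker i z}
  zero_mem' := by
    refine ⟨Submodule.zero_mem _, ?_⟩
    have h1 := hT.add X i 0 (Submodule.zero_mem _) 0 (Submodule.zero_mem _)
    rw [add_zero] at h1
    exact left_eq_add.1 h1
  add_mem' := by
    rintro a b ⟨ha, ha'⟩ ⟨hb, hb'⟩
    exact ⟨Submodule.add_mem _ ha hb, by rw [hT.add X i a ha b hb, ha', hb', add_zero]⟩
  smul_mem' := by
    intro q z hz
    change T.Ker i (q • z)
    rw [smul_eq_act (H := H)]
    exact ker_act hT (l := X.dim) (Submodule.smul_mem _ q (dg_mem C X)) rfl hz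

lemma mem_kerFam {T : AbelJacobi H} (hT : T.IsFunctorial) {i : ℕ} {z : C.A X} :
    z ∈ kerFam hT X i ↔ T.Ker i z := Iff.rfl

lemma isStable_ker {T : AbelJacobi H} (hT : T.IsFunctorial) : IsStableFamily C (kerFam hT) where
  le_gr X i z hz := hz.1.1
  act X Y i j l Γ hΓ hij x hx := ker_act hT hΓ hij hx

/-- **Injectivity of the Abel-Jacobi maps and powers of divisor classes.** -/
theorem aj_iff {T : AbelJacobi H} (hT : T.IsFunctorial) {S : Set 𝒱.Obj} (hS : IsRich C S) :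
    AJInjective T ↔ ∀ X ∈ S, ∀ (n : ℕ) (ξ : C.A X), X.dim = 2 * n → C.Deg 1 ξ →
      H.cl ξ ^ n = 0 → T.aj X n (ξ ^ n) = 0 → ξ ^ n = 0 := by
  constructor
  · intro h X _ n ξ _ hξ hn hn'
    rw [← map_pow] at hn
    exact h X n (ξ ^ n) ⟨mem_homTriv.2 ⟨pow_mem_gr_one hξ n, hn⟩, hn'⟩
  · intro h X i z hz
    refine eq_zero_of_powers hS (isStable_ker hT) (fun Y hY n ξ h1 h2 h3 => ?_) X i hz
    have h4 := (mem_homTriv.1 h3.1).2
    rw [map_pow] at h4
    exact h Y hY n ξ h1 h2 h4 h3.2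

end Pool.Agent.TH85.PD
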